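import Pool.Graph.R_pool_sql_team_seeded_63374d34.N154.DD.KDefs

/-! The Kobayashi pseudodistance is symmetric. -/

set_option autoImplicit false

open Filter Topology Metric Set LinearAlgebra.Projectivization

namespace Pool.Agent.H918.SP

open Pool.Agent.N154.GG

variable {n : ℕ}

theorem poincareDist_symm (s t : ℂ) : poincareDist s t = poincareDist t s := by
  unfold poincareDist
  have h1 : ‖s - t‖ = ‖t - s‖ := norm_sub_rev s t
  have h2 : ‖1 - (starRingEnd ℂ) s * t‖ = ‖1 - (starRingEnd ℂ) t * s‖ := by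
    rw [← Complex.norm_conj]
    congr 1
    rw [map_sub, map_mul, map_one, Complex.conj_conj, mul_comm]
  rw [h1, h2]

theorem chain_symm {X : Set (Fin (n + 1) → ℂ)} {p q : ℙ ℂ (Fin (n + 1) → ℂ)} {c : ℝ}
    (h : IsChainLength X p q c) : IsChainLength X q p c := by
  obtain ⟨k, r, f, s, t, h1, h2, h3, h4⟩ := h
  refine ⟨k, fun i => r i.rev, fun i => f i.rev, fun i => t i.rev, fun i => s i.rev, ?_, ?_,
    fun i => ?_, ?_⟩
  · simp only [Fin.rev_zero]
    exact h2
  · simp only [Fin.rev_last]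
    exact h1
  · obtain ⟨g1, g2, g3, g4, g5, g6⟩ := h3 i.rev
    refine ⟨g1, g2, g4, g3, ?_, ?_⟩
    · simp only [Fin.rev_castSucc]
      exact g6
    · simp only [Fin.rev_succ]
      exact g5
  · rw [h4]
    rw [← Equiv.sum_comp Fin.revPerm]
    refine Finset.sum_congr rfl fun i _ => ?_
    simp only [Fin.revPerm_apply]
    exact poincareDist_symm _ _

theorem kobayashi_symm (X : Set (Fin (n + 1) → ℂ)) (p q : ℙ ℂ (Fin (n + 1) → ℂ)) :
    kobayashi X p q = kobayashi X q p := by
  unfold kobayashi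
  refine le_antisymm ?_ ?_
  · exact le_iInf₂ fun c hc => iInf₂_le c (chain_symm hc)
  · exact le_iInf₂ fun c hc => iInf₂_le c (chain_symm hc)

end Pool.Agent.H918.SP
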