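import Pool.Agent.H918.S.SetThm
import Pool.Agent.H918.S.KSymm

/-! The special subset given by elliptic curves; the theorem on all special subsets. -/

set_option autoImplicit false
set_option linter.overlappingInstances false

open Filter Topology Metric Set LinearAlgebra.Projectivization

namespace Pool.Agent.H918.SP

open FF Pool.Agent.W602.GT Pool.Agent.N154.GG Pool.Agent.H918.SS
open Pool.Agent.TH466.QG (SubOf)
open Pool.Agent.Q103.SF
open Pool.Agent.Y221.PD (EssentialDisc MeroMap)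
open Pool.Agent.Y221.BD (EntireCurve)
open Pool.Agent.Y216 (OnVar)
open Pool.Agent.W603.LV (canDeg)
open Pool.Agent.Q271.RC (IsGeneric IsPoint Nonconst)

variable {n : ℕ} {ι : Type} {F : ι → MvPolynomial (Fin (n + 1)) ℂ} {d : ℕ} {K : Type} [Field K]
  [Algebra ℂ K] {y : Fin (n + 1) → K}

theorem nonconst_iff {E : Type} [Field E] [Algebra ℂ E] {v : Fin (n + 1) → E} :
    coords ℂ v ≠ ⊥ ↔ Nonconst v := by
  constructor
  · intro h
    by_contra hcon
    apply h
    unfold coords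
    rw [eq_bot_iff, IntermediateField.adjoin_le_iff]
    rintro _ ⟨i, j, hj, rfl⟩
    have h1 : IsAlgebraic ℂ (v i / v j) := by
      by_contra h2
      exact hcon ⟨i, j, hj, h2⟩
    have h2 := IntermediateField.isAlgebraic_adjoin_simple (K := ℂ) h1.isIntegral
    have h3 := IntermediateField.eq_bot_of_isAlgClosed_of_isAlgebraic
      (IntermediateField.adjoin ℂ {v i / v j})
    have h4 : v i / v j ∈ IntermediateField.adjoin ℂ {v i / v j} :=
      IntermediateField.subset_adjoin _ _ rfl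
    rw [h3] at h4
    exact h4
  · rintro ⟨i, j, hj, hij⟩ h
    apply hij
    have h1 : v i / v j ∈ coords ℂ v := IntermediateField.subset_adjoin _ _ ⟨i, j, hj, rfl⟩
    rw [h, IntermediateField.mem_bot] at h1
    obtain ⟨c, hc⟩ := h1
    rw [← hc]
    exact isAlgebraic_algebraMap c

/-- elliptic curves -/
theorem elliptic_iff (hX : ProjVariety F d y) {E : Type} [Field E] [Algebra ℂ E]
    {v : Fin (n + 1) → E} :
    EllipticIn F E v ↔ IsFF ℂ E ∧ IsElliptic E ∧ OnVar ℂ y v ∧ Nonconst v := by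
  constructor
  · rintro ⟨hw, hd, hne, hm, hn⟩
    refine ⟨⟨?_, by rw [hd]⟩, hw, ⟨?_, spec_of hX hm⟩, nonconst_iff.1 hn⟩
    · obtain ⟨a, b, x, z, -, -, h1⟩ := hw
      rw [← IntermediateField.fg_top_iff, ← h1]
      exact IntermediateField.fg_adjoin_of_finite (Set.toFinite _)
    · obtain ⟨i, hi⟩ := Function.ne_iff.1 hne
      exact ⟨i, hi⟩
  · rintro ⟨hff, hw, hv, hn⟩
    refine ⟨hw, IsFF.trdeg, ?_, fun i => hv.2 _ (hX.form i) (hX.sub.mem i), nonconst_iff.2 hn⟩
    obtain ⟨j, hj⟩ := hv.1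
    intro h
    exact hj (congrFun h j)

theorem spEll_eq (hX : ProjVariety F d y) (h : SpecialCore y) : SpEll F = LowUnion F := by
  refine closure_low hX h.finite (P := fun G => ∀ (E : Type) [Field E] [Algebra ℂ E]
    (v : Fin (n + 1) → E), EllipticIn F E v → val v G = 0) fun G hG => ?_
  rw [← h.ell_eq]
  constructor
  · intro h1
    refine ⟨hG, fun E _ _ hff hw v hv hn => ?_⟩
    exact h1 E v ((elliptic_iff hX).2 ⟨hff, hw, hv, hn⟩)
  · intro h1 E _ _ v hv
    obtain ⟨hff, hw, hv', hn⟩ := (elliptic_iff hX).1 hv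
    exact h1.2 E hw v hv' hn

/-- a closed subset given by a form -/
theorem ne_cone (hX : ProjVariety F d y) {G : MvPolynomial (Fin (n + 1)) ℂ}
    (hy : val y G ≠ 0) : ∃ x ∈ Cone F, val x G ≠ 0 := by
  by_contra hcon
  push Not at hcon
  apply hy
  set I : Ideal (MvPolynomial (Fin (n + 1)) ℂ) := Ideal.span (range F) with hI
  obtain ⟨j, hj⟩ := Function.ne_iff.1 hX.sub.ne
  have hrad : MvPolynomial.X j * G ∈ I.radical := by
    rw [← MvPolynomial.vanishingIdeal_zeroLocus_eq_radical (K := ℂ) I,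
      MvPolynomial.mem_vanishingIdeal_iff]
    intro x hx
    rw [MvPolynomial.mem_zeroLocus_iff] at hx
    by_cases hx0 : x = 0
    · rw [map_mul, MvPolynomial.aeval_X, hx0]
      simp
    · have h2 : x ∈ Cone F := ⟨hx0, fun i => hx _ (Ideal.subset_span ⟨i, rfl⟩)⟩
      have h3 := hcon x h2
      rw [map_mul]
      unfold Pool.Agent.W602.GT.val at h3
      rw [h3, mul_zero]
  obtain ⟨N, hN⟩ := hrad
  have hker : ∀ P ∈ I, MvPolynomial.aeval y P = 0 := by
    intro P hP
    have h1 : I ≤ RingHom.ker (MvPolynomial.aeval (R := ℂ) y) := by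
      rw [hI, Ideal.span_le]
      rintro _ ⟨i, rfl⟩
      exact hX.sub.mem i
    exact h1 hP
  have h3 := hker _ hN
  rw [map_pow, map_mul, MvPolynomial.aeval_X] at h3
  have h4 : y j * val y G = 0 := by
    by_contra hne
    exact pow_ne_zero N hne h3
  exact (mul_eq_zero.1 h4).resolve_left hj

/-- the union of the curves of genus at most one is a proper subset -/
theorem low_ne (hX : ProjVariety F d y) {G : MvPolynomial (Fin (n + 1)) ℂ} (hG : G ∈ lowForms y)
    (hy : val y G ≠ 0) : LowUnion F ≠ Cone F := by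
  intro h
  obtain ⟨x, hx, hxG⟩ := ne_cone hX hy
  rw [← h] at hx
  obtain ⟨-, V, hV, h2⟩ := hx
  rw [lowCurves_eq hX] at hV
  exact hxG (h2 G (hG.2 V hV))

/-- `Sp_h(X)` is not `X`. -/
theorem spH_ne {m : ℕ} {ι' : Type} {F' : ι' → MvPolynomial (Fin (m + 1)) ℂ} {L : PeriodPair}
    {Q : Fin (n + 1) → MvPolynomial (Fin (m + 1)) ℂ}
    {α : (Fin (m + 1) → ℂ) → ℂ ⧸ L.lattice} {B : Set (ℂ ⧸ L.lattice)}
    (hX : ProjVariety F d y) (hd : 2 ≤ d) (hF' : ∀ i, IsForm (F' i))
    (hC : EtaleCovering F F' Q) (hα : HolToTorus (Cone F') L α) (hB : B.Finite)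
    (h : HasReduction F' α B) {H : MvPolynomial (Fin (n + 1)) ℂ} (hH : IsForm H)
    (hy : val y H ≠ 0)
    (hHB : ∀ u ∈ Cone F, (∃ b ∈ B, OverPoint F' α Q b u) → val u H = 0) :
    SpH F ≠ Cone F := by
  obtain ⟨S, k, -, -, -, -, -, -, -, G, -, -, -, hG⟩ := allV hX hd hF' hC hα hB h
  obtain ⟨h1, h2, h3, h4, -, -⟩ := hG H hH hy hHB
  intro hcon
  obtain ⟨x, hx, hxG⟩ := ne_cone hX h2
  rw [← hcon] at hx
  refine hxG (hx.2 _ h1 ?_)
  rintro _ ⟨f, hf, t, rfl⟩
  rw [val_is_eval]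
  exact ent_conv hX h1 h4 _ ((entire_iff hX).1 hf) t

/-- the Zariski closures of the single curves -/
theorem closures (hX : ProjVariety F d y) (h : SpecialCore y) :
    (∀ f, EntireIn F f → EquationsOn (range f) ∈ LowCurves F) ∧
    (∀ f, EssentialIn F f → EquationsOn (f '' (ball 0 1 \ {0})) ∈ LowCurves F) ∧
    (∀ (g : ℕ) (h : (Fin g → ℂ) → Fin (n + 1) → ℂ), MerIn F h →
      EquationsOn (range h) ∈ LowCurves F) ∧
    (∀ V ∈ LowCurves F, ∃ (E : Type) (_ : Field E) (_ : Algebra ℂ E) (v : Fin (n + 1) → E),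
      EllipticIn F E v ∧ V = Equations v) ∧
    (∀ V ∈ LowCurves F, ∃ f, EntireIn F f ∧ V = EquationsOn (range f)) := by
  rw [lowCurves_eq hX]
  refine ⟨fun f hf => ?_, fun f hf => ?_, fun g u hu => ?_, fun V hV => ?_, fun V hV => ?_⟩
  · have h1 := h.entire _ ((entire_iff hX).1 hf)
    convert h1 using 1
    ext G
    refine and_congr_right fun _ => ⟨fun h2 t _ => ?_, ?_⟩
    · have h3 := h2 _ ⟨t, rfl⟩
      rwa [val_is_eval] at h3
    · rintro h2 _ ⟨t, rfl⟩
      rw [val_is_eval]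
      exact h2 t trivial
  · have h1 := h.disc _ ((essential_iff hX).1 hf)
    convert h1 using 1
    ext G
    refine and_congr_right fun _ => ⟨fun h2 t ht => ?_, ?_⟩
    · have h3 := h2 _ ⟨t, ht, rfl⟩
      rwa [val_is_eval] at h3
    · rintro h2 _ ⟨t, ht, rfl⟩
      rw [val_is_eval]
      exact h2 t ht
  · have h1 := h.mero _ _ ((mer_iff hX).1 hu)
    convert h1 using 1
    ext G
    refine and_congr_right fun _ => ⟨fun h2 t _ => ?_, ?_⟩
    · have h3 := h2 _ ⟨t, rfl⟩
      rwa [val_is_eval] at h3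
    · rintro h2 _ ⟨t, rfl⟩
      rw [val_is_eval]
      exact h2 t trivial
  · obtain ⟨E, i1, i2, i3, v, hE, hv, hn, hV⟩ := h.elliptic V hV
    exact ⟨E, i1, i2, v, (elliptic_iff hX).2 ⟨i3, hE, hv, hn⟩, hV.symm⟩
  · obtain ⟨f, hf, hV⟩ := h.curves V hV
    refine ⟨fun t i => f i t, (entire_iff hX).2 hf, ?_⟩
    rw [← hV]
    ext G
    refine and_congr_right fun _ => ⟨?_, fun h2 t _ => ?_⟩
    · rintro h2 _ ⟨t, rfl⟩
      rw [val_is_eval]
      exact h2 t trivial
    · have h3 := h2 _ ⟨t, rfl⟩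
      rwa [val_is_eval] at h3

end Pool.Agent.H918.SP
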