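import Pool.Agent.H918.S.Spec
import Pool.Agent.H918.E.Defs
import Pool.Graph.R_pool_sql_team_seeded_63374d34.N154.DD.PDefs

/-! Holomorphic maps given by homogeneous coordinates. -/

set_option autoImplicit false

open Filter Topology Metric Set LinearAlgebra.Projectivization

namespace Pool.Agent.H918.SP

open FF Pool.Agent.W602.GT Pool.Agent.N154.GG Pool.Agent.H918.SS
open Pool.Agent.Y221.PD (EssentialDisc MeroMap)
open Pool.Agent.Y221.BD (EntireCurve)

variable {n : ℕ} {ι : Type} {F : ι → MvPolynomial (Fin (n + 1)) ℂ} {d : ℕ} {K : Type} [Field K]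
  [Algebra ℂ K] {y : Fin (n + 1) → K}

theorem one_ne : (fun _ => 1 : Fin (n + 1) → ℂ) ≠ 0 := by
  intro h
  have := congrFun h 0
  simp at this

open Classical in
/-- the map with the homogeneous coordinates `f` -/
noncomputable def toP (f : ℂ → Fin (n + 1) → ℂ) (t : ℂ) : ℙ ℂ (Fin (n + 1) → ℂ) :=
  if h : f t ≠ 0 then Projectivization.mk ℂ (f t) h else Projectivization.mk ℂ _ one_ne

theorem toP_of {f : ℂ → Fin (n + 1) → ℂ} {t : ℂ} (h : f t ≠ 0) :
    toP f t = Projectivization.mk ℂ (f t) h := by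
  unfold toP
  rw [dif_pos h]

theorem toP_rep {f : ℂ → Fin (n + 1) → ℂ} {t : ℂ} (h : f t ≠ 0) :
    ∃ a : ℂ, a ≠ 0 ∧ (toP f t).rep = a • f t := by
  obtain ⟨a, ha⟩ := Projectivization.exists_smul_eq_mk_rep ℂ (f t) h
  refine ⟨a, a.ne_zero, ?_⟩
  rw [toP_of h, ← ha]
  rfl

theorem val_rep {f : ℂ → Fin (n + 1) → ℂ} {t : ℂ} (h : f t ≠ 0)
    {G : MvPolynomial (Fin (n + 1)) ℂ} (hG : IsForm G) :
    val (toP f t).rep G = 0 ↔ MvPolynomial.eval (f t) G = 0 := by
  obtain ⟨a, ha, hr⟩ := toP_rep h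
  obtain ⟨e, he⟩ := hG
  have h1 : val (f t) G = MvPolynomial.eval (f t) G := by
    unfold Pool.Agent.W602.GT.val
    exact DFunLike.congr_fun (MvPolynomial.coe_aeval_eq_eval (f t)) G
  have h2 : val (a • f t) G = a ^ e * val (f t) G := Pool.Agent.W602.GT.val_smul he a (f t)
  rw [hr, h2, h1, mul_eq_zero, or_iff_right (pow_ne_zero _ ha)]

theorem rep_cone (hX : ProjVariety F d y) {f : ℂ → Fin (n + 1) → ℂ} {t : ℂ} (h : f t ≠ 0)
    (hm : ∀ G : MvPolynomial (Fin (n + 1)) ℂ, IsForm G → val y G = 0 →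
      MvPolynomial.eval (f t) G = 0) : (toP f t).rep ∈ Cone F :=
  ⟨(toP f t).rep_nonzero, fun i => (val_rep h (hX.form i)).2 (hm _ (hX.form i) (hX.sub.mem i))⟩

/-- entire curves -/
theorem ent_conv (hX : ProjVariety F d y) {R : MvPolynomial (Fin (n + 1)) ℂ} (hR : IsForm R)
    (h : ∀ f, HolIn F f → (∀ z w, f z = f w) ∨ ∀ z, val (f z).rep R = 0) :
    ∀ f, EntireCurve y f → ∀ t, MvPolynomial.eval (fun i => f i t) R = 0 := by
  intro f hf t
  have hne : ∀ t, (fun i => f i t) ≠ 0 := by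
    intro t h0
    obtain ⟨i, hi⟩ := hf.ne t
    exact hi (congrFun h0 i)
  have hne' : ∀ t, (fun t i => f i t) t ≠ 0 := hne
  have hin : HolIn F (toP fun t i => f i t) := by
    refine ⟨fun z => ⟨univ, fun t i => f i t, isOpen_univ, mem_univ z, ?_, fun w _ =>
      ⟨hne w, toP_of (hne' w)⟩⟩, fun z => rep_cone hX (hne' z) fun G hG hy => hf.mem G hG hy z⟩
    rw [differentiableOn_univ]
    exact differentiable_pi.2 hf.hol
  rcases h _ hin with h1 | h1
  · exfalso
    obtain ⟨i, j, a, b, hab⟩ := hf.nonconst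
    apply hab
    have h2 := h1 a b
    rw [toP_of (hne' a), toP_of (hne' b), Projectivization.mk_eq_mk_iff'] at h2
    obtain ⟨c, hc⟩ := h2
    have h3 : ∀ l, f l a = c * f l b := by
      intro l
      have := congrFun hc l
      simp only [Pi.smul_apply, smul_eq_mul] at this
      exact this.symm
    rw [h3 i, h3 j]
    ring
  · exact (val_rep (hne' t) hR).1 (h1 t)

/-- punctured discs -/
theorem disc_conv (hX : ProjVariety F d y) {R : MvPolynomial (Fin (n + 1)) ℂ} (hR : IsForm R)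
    (h : ∀ f, PunctIn F f → Extends F f ∨ ∀ z ∈ PDisc, val (f z).rep R = 0) :
    ∀ f, EssentialDisc y f → ∀ t ∈ ball (0 : ℂ) 1 \ {0}, MvPolynomial.eval (f t) R = 0 := by
  intro f hf t ht
  have hopen : IsOpen (ball (0 : ℂ) 1 \ {0}) := isOpen_ball.sdiff isClosed_singleton
  have hin : PunctIn F (toP f) := by
    refine ⟨fun z hz => ⟨ball (0 : ℂ) 1 \ {0}, f, hopen, hz, differentiableOn_pi.2 hf.hol,
      fun w hw => ⟨hf.ne w hw, toP_of (hf.ne w hw)⟩⟩, fun z hz => rep_cone hX (hf.ne z hz)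
        fun G hG hy => hf.mem G hG hy z hz⟩
  rcases h _ hin with ⟨f', h1, -, h3⟩ | h1
  · exfalso
    apply hf.ess
    refine Pool.Agent.W603.BP.extends_of f (fun j w hw => ?_) (fun w hw =>
      hf.ne w (Pool.Agent.W603.BP.mem_disc.2 hw)) fun j k hj hk => ?_
    · exact (hf.hol j).analyticAt (hopen.mem_nhds (Pool.Agent.W603.BP.mem_disc.2 hw))
    · obtain ⟨V, g, hV, h0V, hg, hgf⟩ := h1 0 (mem_ball_self one_pos)
      have hga : ∀ j, AnalyticAt ℂ (fun w => g w j) 0 := fun j =>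
        (differentiableOn_pi.1 hg j).analyticAt (hV.mem_nhds h0V)
      have hnear : ∀ᶠ w in 𝓝[≠] (0 : ℂ), ∃ c : ℂ, c ≠ 0 ∧ f w = c • g w := by
        filter_upwards [nhdsWithin_le_nhds (hV.mem_nhds h0V),
          nhdsWithin_le_nhds (isOpen_ball.mem_nhds (mem_ball_self (x := (0 : ℂ)) one_pos)),
          self_mem_nhdsWithin] with w hw1 hw2 hw3
        obtain ⟨h5, h6⟩ := hgf w hw1
        have h7 : w ∈ PDisc := ⟨hw2, hw3⟩
        rw [h3 w h7, toP_of (hf.ne w h7), Projectivization.mk_eq_mk_iff'] at h6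
        obtain ⟨c, hc⟩ := h6
        refine ⟨c, ?_, hc.symm⟩
        rintro rfl
        rw [zero_smul] at hc
        exact hf.ne w h7 hc.symm
      refine ⟨fun w => g w j / g w k, ((hga j).meromorphicAt).div (hga k).meromorphicAt, ?_⟩
      rcases (hga k).eventually_eq_zero_or_eventually_ne_zero with h8 | h8
      · exfalso
        apply hk
        filter_upwards [hnear, nhdsWithin_le_nhds h8] with w hw1 hw2
        obtain ⟨c, -, hc⟩ := hw1
        rw [hc, Pi.smul_apply, hw2, smul_zero]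
      · filter_upwards [hnear, h8] with w hw1 hw2
        obtain ⟨c, -, hc⟩ := hw1
        rw [hc, Pi.smul_apply, Pi.smul_apply, smul_eq_mul, smul_eq_mul]
        field_simp
  · exact (val_rep (hf.ne t ht) hR).1 (h1 t ht)

end Pool.Agent.H918.SP
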