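import Pool.Agent.H918.S.Surf

/-! Subvarieties of projective sets; the Kobayashi pseudodistance modulo finitely many curves. -/

set_option autoImplicit false

open Filter Topology Metric Set LinearAlgebra.Projectivization

namespace Pool.Agent.H918.SP

open FF Pool.Agent.W602.GT Pool.Agent.N154.GG Pool.Agent.H918.SS
open Pool.Agent.TH466.QG (SubOf)
open Pool.Agent.Q103.SF
open Pool.Agent.Q271.RC (IsGeneric IsPoint Nonconst)

variable {m n : ℕ} {ι ι' : Type} {F : ι → MvPolynomial (Fin (n + 1)) ℂ}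
  {F' : ι' → MvPolynomial (Fin (m + 1)) ℂ} {d : ℕ} {K : Type} [Field K]
  [Algebra ℂ K] {y : Fin (n + 1) → K} {L : PeriodPair}
  {Q : Fin (n + 1) → MvPolynomial (Fin (m + 1)) ℂ}
  {α : (Fin (m + 1) → ℂ) → ℂ ⧸ L.lattice} {B : Set (ℂ ⧸ L.lattice)}

/-- the points of `{F = 0}` over any field are points of the variety with the generic point `y` -/
theorem spec_of (hX : ProjVariety F d y) {K' : Type} [Field K'] [Algebra ℂ K']
    {y' : Fin (n + 1) → K'} (h : ∀ i, val y' (F i) = 0) :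
    ∀ G : MvPolynomial (Fin (n + 1)) ℂ, IsForm G → val y G = 0 → val y' G = 0 := by
  rintro G ⟨e, he⟩ hG
  set I : Ideal (MvPolynomial (Fin (n + 1)) ℂ) := Ideal.span (range F) with hI
  have hrad : G ∈ I.radical := by
    rw [← MvPolynomial.vanishingIdeal_zeroLocus_eq_radical (K := ℂ) I,
      MvPolynomial.mem_vanishingIdeal_iff]
    intro x hx
    rw [MvPolynomial.mem_zeroLocus_iff] at hx
    by_cases hx0 : x = 0
    · by_cases he0 : e = 0
      · subst he0
        obtain ⟨c, hc⟩ : ∃ c : ℂ, G = MvPolynomial.C c :=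
          ⟨_, (MvPolynomial.totalDegree_eq_zero_iff_eq_C.1
            (Nat.le_zero.1 he.totalDegree_le))⟩
        have h1 : (algebraMap ℂ K) c = 0 := by
          rw [hc] at hG
          unfold Pool.Agent.W602.GT.val at hG
          rwa [MvPolynomial.algHom_C] at hG
        have h2 : c = 0 := by
          rwa [map_eq_zero] at h1
        rw [hc, h2, map_zero, map_zero]
      · have h1 : val (fun i => (0 : ℂ) * x i) G = 0 ^ e * val x G :=
          Pool.Agent.W602.GT.val_smul he 0 x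
        have h2 : (fun i => (0 : ℂ) * x i) = x := by
          funext i
          rw [hx0]
          simp
        rw [h2, zero_pow he0, zero_mul] at h1
        exact h1
    · have h1 : x ∈ Cone F := ⟨hx0, fun i => hx _ (Ideal.subset_span ⟨i, rfl⟩)⟩
      exact (hX.irred h1).2 G ⟨e, he⟩ hG
  obtain ⟨N, hN⟩ := hrad
  have hker : ∀ P ∈ I, MvPolynomial.aeval y' P = 0 := by
    intro P hP
    have h1 : I ≤ RingHom.ker (MvPolynomial.aeval (R := ℂ) y') := by
      rw [hI, Ideal.span_le]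
      rintro _ ⟨i, rfl⟩
      exact h i
    exact h1 hP
  have h3 := hker _ hN
  rw [map_pow] at h3
  by_contra hne
  exact pow_ne_zero N hne h3

/-- subvarieties of `{F = 0}` are subvarieties of the variety with the generic point `y` -/
theorem sub_of (hX : ProjVariety F d y) {K' : Type} [Field K'] [Algebra ℂ K'] {w : ℕ}
    {y' : Fin (n + 1) → K'} (h : SubVar F K' w y') : SubOf ℂ y y' :=
  ⟨h.ne, h.gen, spec_of hX h.mem⟩

/-- subvarieties of surfaces -/
theorem strong2 (hX : ProjVariety F 2 y) (hK : GeneralType ℂ K 2)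
    {R : MvPolynomial (Fin (n + 1)) ℂ}
    (h1 : ∀ (K' : Type) [Field K'] [Algebra ℂ K'] (y' : Fin (n + 1) → K'), SubVar F K' 1 y' →
      ¬ GeneralType ℂ K' 1 → val y' R = 0) :
    ∀ (K' : Type) [Field K'] [Algebra ℂ K'] (w : ℕ) (y' : Fin (n + 1) → K'), 1 ≤ w →
      SubVar F K' w y' → ¬ GeneralType ℂ K' w → val y' R = 0 := by
  intro K' _ _ w y' hw hy' hgt
  have hb : IsGeneric y := ⟨by
    obtain ⟨i, hi⟩ := Function.ne_iff.1 hX.sub.ne
    exact ⟨i, hi⟩, hX.sub.gen⟩
  have hz0 : ∃ j, y' j ≠ 0 := by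
    obtain ⟨i, hi⟩ := Function.ne_iff.1 hy'.ne
    exact ⟨i, hi⟩
  obtain ⟨hw2, hiso⟩ := Pool.Agent.Q96.OS.gen_point' hb hX.sub.dim K' y' w
    (fun G D hG hGx => (sub_of hX hy').spec G ⟨D, hG⟩ hGx) ⟨hz0, hy'.gen⟩ hy'.dim
  rcases (by omega : w = 1 ∨ w = 2) with rfl | rfl
  · exact h1 K' y' hy' hgt
  · exfalso
    obtain ⟨σ, l, hl, hvl, hσ⟩ := hiso rfl
    exact hgt (Pool.Agent.TH466.QG.general_of_equiv
      (AlgEquiv.ofBijective σ ⟨σ.injective, hσ⟩) hK)

/-- **Kobayashi hyperbolicity modulo finitely many curves and the fibres over `B`.** -/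
theorem kobS (hX : ProjVariety F d y) (hF' : ∀ i, IsForm (F' i)) (hC : EtaleCovering F F' Q)
    (hα : HolToTorus (Cone F') L α) (hB : B.Finite) (h : HasReduction F' α B)
    {S : Set (ℂ → ℙ ℂ (Fin (n + 1) → ℂ))}
    (hmain : ∀ f, HolIn F f → (∀ z w, f z = f w) ∨
        (∃ b ∈ B, ∀ z, OverPoint F' α Q b (f z).rep) ∨
        ∃ g ∈ S, ∃ φ : ℂ → ℂ, Differentiable ℂ φ ∧ ∀ z, f z = g (φ z))
    {p q : ℙ ℂ (Fin (n + 1) → ℂ)} (hp : p.rep ∈ Cone F) (hq : q.rep ∈ Cone F) (hpq : p ≠ q)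
    (hpB : ∀ b ∈ B, ¬ OverPoint F' α Q b p.rep) (hpS : ∀ g ∈ S, ∀ z, p ≠ g z) :
    0 < kobayashi (Cone F) p q := by
  obtain ⟨p', hp', hpp⟩ := etale_onto hC hF' hp
  refine kobV hX.form hF' hC hα hB h hp hq hpq hp' hpp (fun hb => hpB _ hb ⟨p'.rep, hp', rfl, hpp⟩)
    fun g' hg' hgα z hz => ?_
  -- the curve in `{F = 0}`
  obtain ⟨g, h1, h2, h3⟩ := etale_push hF' hC hX.form isOpen_univ
      (holMapOn_univ.2 hg'.1) (fun z _ => hg'.2 z)
  have hpg : p = g z := over_unique hC hp' hpp (by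
    rw [hz]
    exact h3 z (mem_univ z))
  rcases hmain g ⟨holMapOn_univ.1 h1, fun z => h2 z (mem_univ z)⟩ with h4 | ⟨b, hb, h4⟩ |
    ⟨g0, hg0, φ, -, h4⟩
  · -- the curve is not constant
    obtain ⟨r, hr⟩ := hC.sheets
    have h5 : ∀ w, (g' w) ∈ {p₁ : ℙ ℂ (Fin (m + 1) → ℂ) | p₁.rep ∈ Cone F' ∧
        ∃ c : ℂ, mapBy Q p₁.rep = c • p.rep} := by
      intro w
      refine ⟨hg'.2 w, ?_⟩
      rw [hpg, h4 z w]
      exact h3 w (mem_univ w)
    have hfin : {p₁ : ℙ ℂ (Fin (m + 1) → ℂ) | p₁.rep ∈ Cone F' ∧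
        ∃ c : ℂ, mapBy Q p₁.rep = c • p.rep}.Finite :=
      Set.finite_of_encard_le_coe (hr _ hp (Set.notMem_empty _))
    have h6 : (range fun w : ℂ => (Submodule.Quotient.mk w : ℂ ⧸ L.lattice)).Finite := by
      refine (hfin.image fun p₁ => α p₁.rep).subset ?_
      rintro _ ⟨w, rfl⟩
      exact ⟨g' w, h5 w, hgα w⟩
    have h7 : (univ : Set ℂ).Countable := by
      have h8 : (univ : Set ℂ) = ⋃ b ∈ (range fun w : ℂ =>
          (Submodule.Quotient.mk w : ℂ ⧸ L.lattice)),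
          {w : ℂ | (Submodule.Quotient.mk w : ℂ ⧸ L.lattice) = b} := by
        ext w
        simp
      rw [h8]
      refine h6.countable.biUnion fun b hb => ?_
      obtain ⟨w0, rfl⟩ := hb
      have h9 : {w : ℂ | (Submodule.Quotient.mk w : ℂ ⧸ L.lattice) = Submodule.Quotient.mk w0} ⊆
          (fun l => w0 + l) '' (L.lattice : Set ℂ) := by
        intro w hw
        refine ⟨w - w0, (Submodule.Quotient.eq _).1 hw, ?_⟩
        ring
      have h10 : (L.lattice : Set ℂ).Countable := by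
        have : Countable L.lattice := by infer_instance
        exact Set.countable_coe_iff.1 this
      exact (h10.image _).mono h9
    exact not_countable_complex h7
  · exact hpB b hb (by rw [hpg]; exact h4 z)
  · exact hpS g0 hg0 (φ z) (by rw [hpg]; exact h4 z)

end Pool.Agent.H918.SP
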