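import Pool.Graph.R_pool_sql_team_seeded_3997aac3.Q103.SF.Conv
import Pool.Graph.R_pool_sql_team_seeded_3997aac3.Q103.SF.Fin
import Pool.Graph.R_pool_sql_team_seeded_3997aac3.Q285.SFG.Gpc
import Pool.Graph.R_pool_sql_team_seeded_3997aac3.Q24.SF.W3
import Pool.Graph.R_seed8.TH466.QG.Equiv

/-!
All special sets of a surface whose entire curves and punctured discs with essential singularities are
contained in a proper closed subset.
-/

set_option autoImplicit false
set_option maxHeartbeats 400000
set_option linter.overlappingInstances false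
set_option linter.unusedSectionVars false

namespace Pool.Agent.H918.SP

open FF Filter Metric Topology
open Pool.Agent.W602.GT
open Pool.Agent.Y221.PD
open Pool.Agent.Y221.BD (EntireCurve)
open Pool.Agent.Y216 (OnVar)
open Pool.Agent.W603.LV (canDeg)
open Pool.Agent.Q271.RC (IsGeneric IsPoint Nonconst)
open Pool.Agent.TH466.QG (SubOf)
open Pool.Agent.Q103.SF

/-- Let `X` be the projective variety with the generic point `x`. All special subsets of `X` are equal
to the union of the closed curves of geometric genus `≤ 1` in `X`, and these are finite in number.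

The closed curves are given by the sets of the forms which vanish on them. -/
structure SpecialCore {M : ℕ} {K : Type} [Field K] [Algebra ℂ K] (x : Fin (M + 1) → K) :
    Prop where
  /-- the closed curves of geometric genus `≤ 1` in `X` are finite in number -/
  finite : (lowCurves x).Finite
  /-- the Zariski closure of an entire curve is a curve of genus `≤ 1` -/
  entire : ∀ f, EntireCurve x f → vanOn Set.univ (fun t i => f i t) ∈ lowCurves x
  /-- each curve of genus `≤ 1` is the Zariski closure of an entire curve -/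
  curves : ∀ V ∈ lowCurves x, ∃ f, EntireCurve x f ∧ vanOn Set.univ (fun t i => f i t) = V
  /-- each curve of genus `≤ 1` is the image of an elliptic curve -/
  elliptic : ∀ V ∈ lowCurves x, ∃ (E : Type) (_ : Field E) (_ : Algebra ℂ E) (_ : IsFF ℂ E)
    (v : Fin (M + 1) → E), IsElliptic E ∧ OnVar ℂ x v ∧ Nonconst v ∧ van v = V
  /-- the Zariski closure of a meromorphic image of `ℂ ^ g` is a curve of genus `≤ 1` -/
  mero : ∀ g u, MeroMap x g u → vanOn Set.univ (fun t i => u i t) ∈ lowCurves x
  /-- the Zariski closure of the image of a punctured disc with an essential singularity is a curve of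
  genus `≤ 1` -/
  disc : ∀ f, EssentialDisc x f → vanOn (ball (0 : ℂ) 1 \ {0}) f ∈ lowCurves x

/-- All special subsets of `X` are equal to the union of the closed curves of geometric genus `≤ 1` in
`X`, and these are finite in number. -/
structure AllSpecialSets {M : ℕ} {K : Type} [Field K] [Algebra ℂ K] (x : Fin (M + 1) → K) : Prop
    extends SpecialCore x where
  /-- every closed subvariety of positive dimension is of general type or a curve of genus `≤ 1` -/
  sub : ∀ (E : Type) [Field E] [Algebra ℂ E] (w : ℕ) (z : Fin (M + 1) → E), SubOf ℂ x z → 1 ≤ w →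
    Algebra.trdeg ℂ E = w → GeneralType ℂ E w ∨ van z ∈ lowCurves x

variable {M : ℕ} {K : Type} [Field K] [Algebra ℂ K] {x : Fin (M + 1) → K}

/-- the closed curves of genus at most one in a surface are finite in number -/
theorem low_finite (htr : Algebra.trdeg ℂ K = (2 : ℕ)) {R : MvPolynomial (Fin (M + 1)) ℂ}
    (hR : IsForm R) (hxR : val x R ≠ 0)
    (hent : ∀ f, EntireCurve x f → ∀ t, MvPolynomial.eval (fun i => f i t) R = 0) :
    (lowCurves x).Finite := by
  obtain ⟨e, he⟩ := hR
  have hlow : S_low := Pool.Agent.Q24.SF.low_curve Pool.Agent.Q95.SF.wei Pool.Agent.Q111.SF.cls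
  refine (Pool.Agent.Q96.HE.finite_curves (b := x) htr le_rfl R he hxR).subset ?_
  intro V hV
  obtain ⟨f, hf, hfV⟩ := curve_of_low hlow hV
  obtain ⟨L, _, _, _, v, hv, hgen, hc, rfl⟩ := hV
  refine ⟨L, inferInstance, inferInstance, v, fun G D hG hGx => hv.2 G ⟨D, hG⟩ hGx, ?_,
    nonconst_of_low hv hgen, rfl⟩
  have h1 : R ∈ van v := by
    rw [← hfV]
    exact ⟨⟨e, he⟩, fun t _ => hent f hf t⟩
  exact h1.2

/-- meromorphic images of affine spaces in surfaces -/
theorem mero_low' (htr : Algebra.trdeg ℂ K = (2 : ℕ)) (hx : x ≠ 0)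
    (hgen : coords ℂ x = ⊤) {R : MvPolynomial (Fin (M + 1)) ℂ} (hRf : IsForm R) (hxR : val x R ≠ 0)
    (hent : ∀ f, EntireCurve x f → ∀ t, MvPolynomial.eval (fun i => f i t) R = 0)
    (hfin : (lowCurves x).Finite) {g : ℕ} {u : Fin (M + 1) → (Fin g → ℂ) → ℂ}
    (hu : MeroMap x g u) : vanOn Set.univ (fun t i => u i t) ∈ lowCurves x := by
  classical
  have hG1 : S_gpc := Pool.Agent.Q285.SFG.t_gpc
  by_contra hcon
  obtain ⟨i, j, a, b, hab⟩ := hu.nonconst
  obtain ⟨k0, hk0⟩ : ∃ k, u k a ≠ 0 := by
    by_contra hcon
    push Not at hcon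
    apply hab
    simp only [hcon, zero_mul]
  -- forms which vanish on the curves but not on the image
  have hsep : ∀ V ∈ lowCurves x, vanOn Set.univ (fun t i => u i t) ⊆ V →
      ∃ G ∈ V, IsForm G ∧ ∃ p, MvPolynomial.eval (fun i => u i p) G ≠ 0 := by
    intro V hV hle
    by_contra hno
    push Not at hno
    apply hcon
    have h1 : vanOn Set.univ (fun t i => u i t) = V := by
      refine Set.Subset.antisymm hle fun G hG => ?_
      have hGf : IsForm G := by
        obtain ⟨L, _, _, _, v, -, -, -, rfl⟩ := hV
        exact hG.1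
      exact ⟨hGf, fun t _ => hno G hG hGf t⟩
    rwa [h1]
  choose! G hGV hGf hGp using hsep
  -- a point where none of these forms vanishes
  let S := hfin.toFinset.filter fun V => vanOn Set.univ (fun t i => u i t) ⊆ V
  obtain ⟨p, hp⟩ := exists_common (insert none (S.image some))
    (fun o => match o with
      | none => u k0
      | some V => fun t => MvPolynomial.eval (fun i => u i t) (G V)) (by
      rintro (_ | V)
      · exact hu.hol k0
      · exact diff_eval hu.hol (G V)) (by
      intro o ho
      rcases Finset.mem_insert.1 ho with rfl | ho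
      · exact ⟨a, hk0⟩
      · obtain ⟨V, hV, rfl⟩ := Finset.mem_image.1 ho
        obtain ⟨h1, h2⟩ := Finset.mem_filter.1 hV
        exact hGp V (hfin.mem_toFinset.1 h1) h2)
  have hpk : u k0 p ≠ 0 := hp none (Finset.mem_insert_self _ _)
  -- a second point
  obtain ⟨q, i', j', hq⟩ : ∃ q i' j', u i' p * u j' q ≠ u j' p * u i' q := by
    by_contra hcon2
    push Not at hcon2
    apply hab
    have h1 : ∀ l c, u l c = u k0 c * u l p / u k0 p := by
      intro l c
      have := hcon2 c l k0
      field_simp
      linear_combination -this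
    rw [h1 i a, h1 j b, h1 j a, h1 i b]
    ring
  let ℓ : ℂ → Fin g → ℂ := fun s => p + s • (q - p)
  have hℓ : Differentiable ℂ ℓ := by
    simp only [ℓ]
    fun_prop
  have h0 : ℓ 0 = p := by simp [ℓ]
  have h1 : ℓ 1 = q := by simp [ℓ]
  obtain ⟨f, hf, hfu⟩ := curve_of_entire (x := x) (u := fun i s => u i (ℓ s))
    (fun i => (hu.hol i).comp hℓ) (fun G hG hxG s => hu.mem G hG hxG (ℓ s)) (i := i') (j := j')
    (a := 0) (b := 1) (by
      simp only [h0, h1]
      exact hq)
  have hV := entire_low hG1 htr hx hgen hRf hxR hf (hent f hf)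
  set V := vanOn Set.univ (fun t i => f i t) with hVdef
  have hle : vanOn Set.univ (fun t i => u i t) ⊆ V := by
    rintro H ⟨hH, hH0⟩
    refine ⟨hH, fun t _ => ?_⟩
    obtain ⟨e, he⟩ := hH
    by_cases hne : ∃ k, u k (ℓ t) ≠ 0
    · obtain ⟨c, hc, hcf⟩ := hfu t hne
      have h2 := eval_scale he c hcf
      rw [hH0 (ℓ t) (Set.mem_univ _)] at h2
      exact (mul_eq_zero.1 h2.symm).resolve_left (pow_ne_zero _ hc)
    · -- continuity
      have hcont : Continuous fun t => MvPolynomial.eval (fun i => f i t) H :=
        (MvPolynomial.continuous_eval H).comp (continuous_pi fun i => (hf.hol i).continuous)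
      have hcl : AnalyticOnNhd ℂ (fun t => u k0 (ℓ t)) Set.univ :=
        ((hu.hol k0).comp hℓ).differentiableOn.analyticOnNhd isOpen_univ
      have hev : ∀ᶠ s in 𝓝[≠] t, u k0 (ℓ s) ≠ 0 := by
        rcases (hcl t (Set.mem_univ _)).eventually_eq_zero_or_eventually_ne_zero with h2 | h2
        · exfalso
          have := hcl.eq_of_eventuallyEq (f := fun t => u k0 (ℓ t)) (g := fun _ => 0)
            analyticOnNhd_const h2
          apply hpk
          rw [← h0]
          exact congrFun this 0
        · exact h2
      have hev2 : ∀ᶠ s in 𝓝[≠] t, MvPolynomial.eval (fun i => f i s) H = 0 := by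
        filter_upwards [hev] with s hs
        obtain ⟨c, hc, hcf⟩ := hfu s ⟨k0, hs⟩
        have h2 := eval_scale he c hcf
        rw [hH0 (ℓ s) (Set.mem_univ _)] at h2
        exact (mul_eq_zero.1 h2.symm).resolve_left (pow_ne_zero _ hc)
      have h3 : Tendsto (fun s => MvPolynomial.eval (fun i => f i s) H) (𝓝[≠] t)
          (𝓝 (MvPolynomial.eval (fun i => f i t) H)) := hcont.continuousAt.mono_left
        nhdsWithin_le_nhds
      have h4 : Tendsto (fun s => MvPolynomial.eval (fun i => f i s) H) (𝓝[≠] t) (𝓝 0) :=
        tendsto_const_nhds.congr' (by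
          filter_upwards [hev2] with s hs
          exact hs.symm)
      exact tendsto_nhds_unique h3 h4
  have hGV' := hGV V hV hle
  have hz : MvPolynomial.eval (fun i => f i 0) (G V) = 0 := hGV'.2 0 (Set.mem_univ _)
  obtain ⟨c, hc, hcf⟩ := hfu 0 ⟨k0, by simp only [h0]; exact hpk⟩
  obtain ⟨e, he⟩ := hGf V hV hle
  have h2 := eval_scale he c hcf
  simp only [h0] at h2
  rw [hz, mul_zero] at h2
  exact hp (some V) (Finset.mem_insert_of_mem (Finset.mem_image_of_mem _
    (Finset.mem_filter.2 ⟨hfin.mem_toFinset.2 hV, hle⟩))) h2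

/-- **Special sets** of surfaces whose entire curves and punctured discs with essential
singularities are contained in a proper closed subset. -/
theorem core_of (htr : Algebra.trdeg ℂ K = (2 : ℕ)) (hx : x ≠ 0) (hgen : coords ℂ x = ⊤)
    {R : MvPolynomial (Fin (M + 1)) ℂ} (hR : IsForm R) (hxR : val x R ≠ 0)
    (hent : ∀ f, EntireCurve x f → ∀ t, MvPolynomial.eval (fun i => f i t) R = 0)
    (hdisc : ∀ f, EssentialDisc x f → ∀ t ∈ ball (0 : ℂ) 1 \ {0},
      MvPolynomial.eval (f t) R = 0) : SpecialCore x := by
  have hG1 : S_gpc := Pool.Agent.Q285.SFG.t_gpc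
  have hlow : S_low := Pool.Agent.Q24.SF.low_curve Pool.Agent.Q95.SF.wei Pool.Agent.Q111.SF.cls
  have hfin := low_finite htr hR hxR hent
  exact
    { finite := hfin
      entire := fun f hf => entire_low hG1 htr hx hgen hR hxR hf (hent f hf)
      curves := fun V hV => curve_of_low hlow hV
      elliptic := fun V hV => ell_of_low hV
      mero := fun g u hu => mero_low' htr hx hgen hR hxR hent hfin hu
      disc := fun f hf => disc_low hG1 htr hx hgen hR hxR hf (hdisc f hf) }

/-- **All special sets** of surfaces of general type whose entire curves and punctured discs with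
essential singularities are contained in a proper closed subset. -/
theorem special_of (htr : Algebra.trdeg ℂ K = (2 : ℕ)) (hx : x ≠ 0) (hgen : coords ℂ x = ⊤)
    (hgt : GeneralType ℂ K 2) (hcore : SpecialCore x) : AllSpecialSets x := by
  have hb : IsGeneric x := ⟨by
    obtain ⟨i, hi⟩ := Function.ne_iff.1 hx
    exact ⟨i, hi⟩, hgen⟩
  exact
    { hcore with
      sub := by
        intro E _ _ w z hz hw ht
        have hz0 : ∃ j, z j ≠ 0 := by
          obtain ⟨i, hi⟩ := Function.ne_iff.1 hz.ne
          exact ⟨i, hi⟩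
        have hzp : IsPoint x z := fun G D hG hGx => hz.spec G ⟨D, hG⟩ hGx
        have hzg : IsGeneric z := ⟨hz0, hz.gen⟩
        obtain ⟨hw2, hiso⟩ := Pool.Agent.Q96.OS.gen_point' hb htr E z w hzp hzg ht
        rcases (by omega : w = 1 ∨ w = 2) with rfl | rfl
        · have hff : IsFF ℂ E := ⟨Pool.Agent.Q72.NA.ess_of_adjoin hz.gen, by rw [ht]; simp⟩
          rcases le_or_gt (canDeg ℂ E) 0 with h3 | h3
          · right
            exact ⟨E, inferInstance, inferInstance, hff, z, ⟨hz0, hz.spec⟩, hz.gen, h3, rfl⟩
          · left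
            exact gt_of_canDeg h3
        · left
          obtain ⟨σ, l, hl, hvl, hσ⟩ := hiso rfl
          exact Pool.Agent.TH466.QG.general_of_equiv
            (AlgEquiv.ofBijective σ ⟨σ.injective, hσ⟩) hgt }

end Pool.Agent.H918.SP
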