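import Pool.Agent.H918.S.Spec

/-! The equations of the special sets. -/

set_option autoImplicit false
set_option linter.overlappingInstances false

namespace Pool.Agent.H918.SP

open FF Filter Metric Topology
open Pool.Agent.W602.GT
open Pool.Agent.Y221.PD
open Pool.Agent.Y221.BD (EntireCurve)
open Pool.Agent.Y216 (OnVar)
open Pool.Agent.W603.LV (canDeg)
open Pool.Agent.Q271.RC (Nonconst)
open Pool.Agent.TH466.QG (SubOf)
open Pool.Agent.Q103.SF
open Pool.Agent.W603.BP (sin_point)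

variable {M : ℕ} {K : Type} [Field K] [Algebra ℂ K] {x : Fin (M + 1) → K}

/-- The equations of the closure of the union of the images of the holomorphic maps from the punctured
disc to `X` with essential singularities. -/
def discForms {M : ℕ} {K : Type} [Field K] [Algebra ℂ K]
    (x : Fin (M + 1) → K) : Set (MvPolynomial (Fin (M + 1)) ℂ) :=
  {G | IsForm G ∧ ∀ f, EssentialDisc x f → ∀ t ∈ ball (0 : ℂ) 1 \ {0},
    MvPolynomial.eval (f t) G = 0}

theorem SpecialCore.ent_eq (h : SpecialCore x) : entForms x = lowForms x := by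
  ext G
  constructor
  · rintro ⟨hG, h1⟩
    refine ⟨hG, fun V hV => ?_⟩
    obtain ⟨f, hf, rfl⟩ := h.curves V hV
    exact ⟨hG, fun t _ => h1 f hf t⟩
  · rintro ⟨hG, h1⟩
    exact ⟨hG, fun f hf t => (h1 _ (h.entire f hf)).2 t trivial⟩

theorem SpecialCore.mero_eq (h : SpecialCore x) : meroForms x = lowForms x := by
  ext G
  constructor
  · rintro ⟨hG, h1⟩
    refine ⟨hG, fun V hV => ?_⟩
    obtain ⟨f, hf, rfl⟩ := h.curves V hV
    refine ⟨hG, fun t _ => ?_⟩
    obtain ⟨i, j, a, b, hab⟩ := hf.nonconst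
    exact h1 1 (fun i t => f i (t 0)) ⟨fun i => (hf.hol i).comp (by fun_prop),
      fun G hG hGx t => hf.mem G hG hGx _, i, j, fun _ => a, fun _ => b, hab⟩ (fun _ => t)
  · rintro ⟨hG, h1⟩
    exact ⟨hG, fun g u hu t => (h1 _ (h.mero g u hu)).2 t trivial⟩

theorem SpecialCore.ell_eq (h : SpecialCore x) : ellForms x = lowForms x := by
  ext G
  constructor
  · rintro ⟨hG, h1⟩
    refine ⟨hG, fun V hV => ?_⟩
    obtain ⟨E, _, _, _, v, hE, hv, hn, rfl⟩ := h.elliptic V hV
    exact ⟨hG, h1 E hE v hv hn⟩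
  · rintro ⟨hG, h1⟩
    refine ⟨hG, fun E _ _ _ hE v hv hn => ?_⟩
    obtain ⟨f, hf, hfv⟩ := curve_of_ell Pool.Agent.Q95.SF.wei hE hv hn
    have h2 := (h1 _ (h.entire f hf))
    rw [hfv] at h2
    exact h2.2

theorem AllSpecialSets.alg_eq (h : AllSpecialSets x) : algForms x = lowForms x := by
  ext G
  constructor
  · rintro ⟨hG, h1⟩
    refine ⟨hG, ?_⟩
    rintro V ⟨L, _, _, _, v, hv, hgen, hc, rfl⟩
    have hne : v ≠ 0 := by
      obtain ⟨j, hj⟩ := hv.1
      intro h
      exact hj (congrFun h j)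
    refine ⟨hG, h1 L 1 v ⟨hne, hgen, hv.2⟩ le_rfl (by
      rw [IsFF.trdeg (k := ℂ) (K := L)]
      simp) fun h2 => ?_⟩
    have h3 := pos_of_gt h2
    omega
  · rintro ⟨hG, h1⟩
    refine ⟨hG, fun E _ _ w z hz hw ht hn => ?_⟩
    rcases h.sub E w z hz hw ht with h2 | h2
    · exact absurd h2 hn
    · exact (h1 _ h2).2

theorem SpecialCore.disc_eq (h : SpecialCore x) : discForms x = lowForms x := by
  ext G
  constructor
  · rintro ⟨hG, h1⟩
    refine ⟨hG, fun V hV => ?_⟩
    obtain ⟨f, hf, rfl⟩ := h.curves V hV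
    refine ⟨hG, fun t _ => ?_⟩
    obtain ⟨w, hw, hws⟩ := sin_point t
    have h3 := h1 _ (disc_of_entire hf) w hw
    simp only [hws] at h3
    exact h3
  · rintro ⟨hG, h1⟩
    exact ⟨hG, fun f hf t ht => (h1 _ (h.disc f hf)).2 t ht⟩

/-- the special set is a proper subset -/
theorem proper_of {R : MvPolynomial (Fin (M + 1)) ℂ} (hR : IsForm R)
    (hent : ∀ f, EntireCurve x f → ∀ t, MvPolynomial.eval (fun i => f i t) R = 0)
    (h : SpecialCore x) : R ∈ lowForms x := by
  rw [← h.ent_eq]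
  exact ⟨hR, hent⟩

end Pool.Agent.H918.SP
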