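import Pool.Graph.R_seed8.W602.GT.SpDefs

/-!
The special subsets of a projective variety: entire curves, punctured discs with essential
singularities, meromorphic images of affine spaces, elliptic curves, curves of genus at most one.
-/

set_option autoImplicit false

namespace Pool.Agent.H918.SP

open Pool.Agent.W602.GT Metric

variable {n : ℕ} {ι : Type}

/-- The Zariski closure, in the projective set `X = {F = 0}`, of the set of the points with the
homogeneous coordinates in `A` (as a cone). -/
def ZClosure (F : ι → MvPolynomial (Fin (n + 1)) ℂ) (A : Set (Fin (n + 1) → ℂ)) :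
    Set (Fin (n + 1) → ℂ) :=
  {x | x ∈ Cone F ∧ ∀ G : MvPolynomial (Fin (n + 1)) ℂ, IsForm G → (∀ u ∈ A, val u G = 0) →
    val x G = 0}

/-- `f t` are the homogeneous coordinates of the values of a nonconstant holomorphic map from the
complex plane to the projective set `X = {F = 0}`. -/
def EntireIn (F : ι → MvPolynomial (Fin (n + 1)) ℂ) (f : ℂ → Fin (n + 1) → ℂ) : Prop :=
  Differentiable ℂ f ∧ (∀ t, f t ∈ Cone F) ∧ ∃ a b, LinearIndependent ℂ ![f a, f b]

/-- `f t` are the homogeneous coordinates of the values of a holomorphic map from the punctured unit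
disc to the projective set `X = {F = 0}` which does not extend to a holomorphic map from the disc. -/
def EssentialIn (F : ι → MvPolynomial (Fin (n + 1)) ℂ) (f : ℂ → Fin (n + 1) → ℂ) : Prop :=
  DifferentiableOn ℂ f (ball 0 1 \ {0}) ∧ (∀ t ∈ ball (0 : ℂ) 1 \ {0}, f t ∈ Cone F) ∧
    ¬ ∃ g : ℂ → Fin (n + 1) → ℂ, DifferentiableOn ℂ g (ball 0 1) ∧
      (∀ t ∈ ball (0 : ℂ) 1, g t ≠ 0) ∧ ∀ t ∈ ball (0 : ℂ) 1 \ {0}, ∃ c : ℂ, f t = c • g t

/-- `h` gives a nonconstant meromorphic map from `ℂ ^ g` to the projective set `X = {F = 0}`: the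
function `h` is holomorphic on `ℂ ^ g`, its nonzero values are homogeneous coordinates of points of
`X`, and two of its values are linearly independent. For example, `h` may be given by the composition
of a nonconstant rational map to `X` from a semi-abelian variety of dimension `g` with the universal
covering map. -/
def MerIn (F : ι → MvPolynomial (Fin (n + 1)) ℂ) {g : ℕ} (h : (Fin g → ℂ) → Fin (n + 1) → ℂ) :
    Prop :=
  Differentiable ℂ h ∧ (∀ z, h z ≠ 0 → h z ∈ Cone F) ∧ ∃ z w, LinearIndependent ℂ ![h z, h w]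

/-- `E` is the function field of an elliptic curve (given by a Weierstrass equation), and `v` is the
value at its generic point of a nonconstant map from this elliptic curve to `X = {F = 0}`. -/
structure EllipticIn (F : ι → MvPolynomial (Fin (n + 1)) ℂ) (E : Type) [Field E] [Algebra ℂ E]
    (v : Fin (n + 1) → E) : Prop where
  weierstrass : ∃ (a b : ℂ) (x y : E), 4 * a ^ 3 + 27 * b ^ 2 ≠ 0 ∧
    y ^ 2 = x ^ 3 + algebraMap ℂ E a * x + algebraMap ℂ E b ∧ IntermediateField.adjoin ℂ {x, y} = ⊤
  dim : Algebra.trdeg ℂ E = 1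
  ne : v ≠ 0
  mem : ∀ i, val v (F i) = 0
  nonconst : coords ℂ v ≠ ⊥

/-- The equations (the forms which vanish on it) of the closed subvariety with the generic point
`v`. -/
def Equations {K' : Type} [Field K'] [Algebra ℂ K'] (v : Fin (n + 1) → K') :
    Set (MvPolynomial (Fin (n + 1)) ℂ) :=
  {G | IsForm G ∧ val v G = 0}

/-- The equations of the Zariski closure of the set of the points with the homogeneous coordinates in
`A`. -/
def EquationsOn (A : Set (Fin (n + 1) → ℂ)) : Set (MvPolynomial (Fin (n + 1)) ℂ) :=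
  {G | IsForm G ∧ ∀ u ∈ A, val u G = 0}

/-- The irreducible closed curves in `X = {F = 0}` which are not of general type, that is, those of
geometric genus at most one, each given by its equations. -/
def LowCurves (F : ι → MvPolynomial (Fin (n + 1)) ℂ) : Set (Set (MvPolynomial (Fin (n + 1)) ℂ)) :=
  {V | ∃ (K' : Type) (_ : Field K') (_ : Algebra ℂ K') (v : Fin (n + 1) → K'), SubVar F K' 1 v ∧
    ¬ GeneralType ℂ K' 1 ∧ V = Equations v}

/-- The union of the irreducible closed curves in `X = {F = 0}` of geometric genus at most one (as a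
cone). -/
def LowUnion (F : ι → MvPolynomial (Fin (n + 1)) ℂ) : Set (Fin (n + 1) → ℂ) :=
  {x | x ∈ Cone F ∧ ∃ V ∈ LowCurves F, ∀ G ∈ V, val x G = 0}

/-- `Sp_p(X)`: the closure of the union of the images of the holomorphic maps from the punctured disc
with essential singularities. -/
def SpP (F : ι → MvPolynomial (Fin (n + 1)) ℂ) : Set (Fin (n + 1) → ℂ) :=
  ZClosure F {u | ∃ f, EssentialIn F f ∧ ∃ t ∈ ball (0 : ℂ) 1 \ {0}, u = f t}

/-- `Sp_h(X)`: the closure of the union of the nonconstant entire curves. -/
def SpH (F : ι → MvPolynomial (Fin (n + 1)) ℂ) : Set (Fin (n + 1) → ℂ) :=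
  ZClosure F {u | ∃ f, EntireIn F f ∧ ∃ t, u = f t}

/-- The closure of the union of the images of the nonconstant meromorphic maps from the spaces
`ℂ ^ g`; it contains `Sp_sab(X)`. -/
def SpMer (F : ι → MvPolynomial (Fin (n + 1)) ℂ) : Set (Fin (n + 1) → ℂ) :=
  ZClosure F {u | ∃ (g : ℕ) (h : (Fin g → ℂ) → Fin (n + 1) → ℂ), MerIn F h ∧ ∃ z, u = h z}

/-- The closure of the union of the images of the nonconstant maps from elliptic curves; it is
contained in `Sp_sab(X)`. -/
def SpEll (F : ι → MvPolynomial (Fin (n + 1)) ℂ) : Set (Fin (n + 1) → ℂ) :=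
  {x | x ∈ Cone F ∧ ∀ G : MvPolynomial (Fin (n + 1)) ℂ, IsForm G →
    (∀ (E : Type) [Field E] [Algebra ℂ E] (v : Fin (n + 1) → E), EllipticIn F E v →
      val v G = 0) → val x G = 0}

end Pool.Agent.H918.SP
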