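import Pool.Agent.H918.S.SetDefs
import Pool.Agent.H918.S.Pages

/-! The special subsets of a surface. -/

set_option autoImplicit false
set_option linter.overlappingInstances false

open Filter Topology Metric Set LinearAlgebra.Projectivization

namespace Pool.Agent.H918.SP

open FF Pool.Agent.W602.GT Pool.Agent.N154.GG Pool.Agent.H918.SS
open Pool.Agent.TH466.QG (SubOf)
open Pool.Agent.Q103.SF
open Pool.Agent.Y221.PD (EssentialDisc MeroMap)
open Pool.Agent.Y221.BD (EntireCurve)
open Pool.Agent.Y216 (OnVar)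
open Pool.Agent.W603.LV (canDeg)
open Pool.Agent.Q271.RC (IsGeneric IsPoint Nonconst)

variable {n : ℕ} {ι : Type} {F : ι → MvPolynomial (Fin (n + 1)) ℂ} {d : ℕ} {K : Type} [Field K]
  [Algebra ℂ K] {y : Fin (n + 1) → K}

theorem val_is_eval (u : Fin (n + 1) → ℂ) (G : MvPolynomial (Fin (n + 1)) ℂ) :
    val u G = MvPolynomial.eval u G := by
  unfold Pool.Agent.W602.GT.val
  exact DFunLike.congr_fun (MvPolynomial.coe_aeval_eq_eval u) G

/-- the curves of genus at most one -/
theorem lowCurves_eq (hX : ProjVariety F d y) : LowCurves F = lowCurves y := by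
  ext V
  constructor
  · rintro ⟨K', i1, i2, v, hv, hgt, rfl⟩
    have hs := sub_of hX hv
    have hff : IsFF ℂ K' := ⟨Pool.Agent.Q72.NA.ess_of_adjoin hv.gen, by rw [hv.dim]; simp⟩
    have h0 : ∃ j, v j ≠ 0 := by
      obtain ⟨i, hi⟩ := Function.ne_iff.1 hv.ne
      exact ⟨i, hi⟩
    refine ⟨K', i1, i2, hff, v, ⟨h0, hs.spec⟩, hv.gen, ?_, rfl⟩
    by_contra hcon
    exact hgt (gt_of_canDeg (not_le.1 hcon))
  · rintro ⟨L, i1, i2, i3, v, hv, hgen, hc, rfl⟩
    refine ⟨L, i1, i2, v, ⟨?_, fun i => hv.2 _ (hX.form i) (hX.sub.mem i), hgen, ?_⟩, ?_, rfl⟩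
    · obtain ⟨j, hj⟩ := hv.1
      intro h
      exact hj (congrFun h j)
    · rw [IsFF.trdeg (k := ℂ) (K := L)]
      simp
    · intro h
      have := pos_of_gt h
      omega

theorem indep_iff {u v : Fin (n + 1) → ℂ} :
    LinearIndependent ℂ ![u, v] ↔ ∃ i j, u i * v j ≠ u j * v i := by
  constructor
  · intro h
    by_contra hcon
    push Not at hcon
    rw [LinearIndependent.pair_iff] at h
    have hu : u ≠ 0 := by
      rintro rfl
      have := h 1 0 (by simp)
      exact one_ne_zero this.1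
    obtain ⟨i, hi⟩ := Function.ne_iff.1 hu
    have := h (v i) (-(u i)) (by
      funext j
      simp only [Pi.add_apply, Pi.smul_apply, smul_eq_mul, Pi.zero_apply]
      have := hcon i j
      linear_combination -this)
    exact hi (neg_eq_zero.1 this.2)
  · rintro ⟨i, j, hij⟩
    rw [LinearIndependent.pair_iff]
    intro s t hst
    have h1 := congrFun hst i
    have h2 := congrFun hst j
    simp only [Pi.add_apply, Pi.smul_apply, smul_eq_mul, Pi.zero_apply] at h1 h2
    have hs : s * (u i * v j - u j * v i) = 0 := by linear_combination v j * h1 - v i * h2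
    have ht : t * (u i * v j - u j * v i) = 0 := by linear_combination u i * h2 - u j * h1
    have hne := sub_ne_zero.2 hij
    exact ⟨(mul_eq_zero.1 hs).resolve_right hne, (mul_eq_zero.1 ht).resolve_right hne⟩

theorem entire_iff (hX : ProjVariety F d y) {f : ℂ → Fin (n + 1) → ℂ} :
    EntireIn F f ↔ EntireCurve y (fun i t => f t i) := by
  constructor
  · rintro ⟨h1, h2, a, b, hab⟩
    obtain ⟨i, j, hij⟩ := indep_iff.1 hab
    refine ⟨fun i => differentiable_pi.1 h1 i, fun t => Function.ne_iff.1 (h2 t).1,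
      fun G hG hGy t => ?_, i, j, a, b, hij⟩
    have := (hX.irred (h2 t)).2 G hG hGy
    rwa [val_is_eval] at this
  · intro h
    obtain ⟨i, j, a, b, hij⟩ := h.nonconst
    refine ⟨differentiable_pi.2 h.hol, fun t => ⟨?_, fun i => ?_⟩, a, b, indep_iff.2 ⟨i, j, hij⟩⟩
    · obtain ⟨i, hi⟩ := h.ne t
      intro h0
      exact hi (congrFun h0 i)
    · rw [val_is_eval]
      exact h.mem _ (hX.form i) (hX.sub.mem i) t

theorem essential_iff (hX : ProjVariety F d y) {f : ℂ → Fin (n + 1) → ℂ} :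
    EssentialIn F f ↔ EssentialDisc y f := by
  constructor
  · rintro ⟨h1, h2, h3⟩
    refine ⟨fun i => differentiableOn_pi.1 h1 i, fun t ht => (h2 t ht).1, fun G hG hGy t ht => ?_,
      h3⟩
    have := (hX.irred (h2 t ht)).2 G hG hGy
    rwa [val_is_eval] at this
  · intro h
    refine ⟨differentiableOn_pi.2 h.hol, fun t ht => ⟨h.ne t ht, fun i => ?_⟩, h.ess⟩
    rw [val_is_eval]
    exact h.mem _ (hX.form i) (hX.sub.mem i) t ht

theorem mer_iff (hX : ProjVariety F d y) {g : ℕ} {h : (Fin g → ℂ) → Fin (n + 1) → ℂ} :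
    MerIn F h ↔ MeroMap y g (fun i t => h t i) := by
  constructor
  · rintro ⟨h1, h2, a, b, hab⟩
    obtain ⟨i, j, hij⟩ := indep_iff.1 hab
    refine ⟨fun i => differentiable_pi.1 h1 i, fun G hG hGy t => ?_, i, j, a, b, hij⟩
    by_cases h0 : h t = 0
    · -- at the zeros of `h`
      have hsub := hX.sub
      obtain ⟨e, he⟩ := hG
      have h3 : (fun i => h t i) = h t := rfl
      by_cases he0 : e = 0
      · subst he0
        obtain ⟨c, hc⟩ : ∃ c : ℂ, G = MvPolynomial.C c :=
          ⟨_, (MvPolynomial.totalDegree_eq_zero_iff_eq_C.1 (Nat.le_zero.1 he.totalDegree_le))⟩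
        have h1 : (algebraMap ℂ K) c = 0 := by
          rw [hc] at hGy
          unfold Pool.Agent.W602.GT.val at hGy
          rwa [MvPolynomial.algHom_C] at hGy
        have h2 : c = 0 := by
          rwa [map_eq_zero] at h1
        rw [hc, h2, map_zero, map_zero]
      · have h1 : val (fun i => (0 : ℂ) * h t i) G = 0 ^ e * val (h t) G :=
          Pool.Agent.W602.GT.val_smul he 0 (h t)
        have h2 : (fun i => (0 : ℂ) * h t i) = h t := by
          funext i
          rw [h0]
          simp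
        rw [h2, zero_pow he0, zero_mul, val_is_eval] at h1
        exact h1
    · have := (hX.irred (h2 t h0)).2 G hG hGy
      rwa [val_is_eval] at this
  · intro hh
    obtain ⟨i, j, a, b, hij⟩ := hh.nonconst
    refine ⟨differentiable_pi.2 hh.hol, fun t h0 => ⟨h0, fun i => ?_⟩, a, b,
      indep_iff.2 ⟨i, j, hij⟩⟩
    rw [val_is_eval]
    exact hh.mem _ (hX.form i) (hX.sub.mem i) t

/-- closures which are given by the equations of the curves of genus at most one -/
theorem closure_low (hX : ProjVariety F d y) (hfin : (lowCurves y).Finite)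
    {P : MvPolynomial (Fin (n + 1)) ℂ → Prop}
    (hP : ∀ G, IsForm G → (P G ↔ G ∈ lowForms y)) :
    {x | x ∈ Cone F ∧ ∀ G : MvPolynomial (Fin (n + 1)) ℂ, IsForm G → P G → val x G = 0} =
      LowUnion F := by
  classical
  ext x
  constructor
  · rintro ⟨hx, h1⟩
    refine ⟨hx, ?_⟩
    rw [lowCurves_eq hX]
    by_contra hcon
    push Not at hcon
    choose! G hG hGx using hcon
    have hform : ∀ V ∈ lowCurves y, IsForm (G V) := by
      intro V hV
      have h2 := hG V hV
      obtain ⟨L, _, _, _, v, -, -, -, rfl⟩ := hV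
      exact h2.1
    have hprod : ∏ V ∈ hfin.toFinset, G V ∈ lowForms y := by
      have hpf : IsForm (∏ V ∈ hfin.toFinset, G V) :=
        isForm_prod _ _ fun V hV => hform V (hfin.mem_toFinset.1 hV)
      refine ⟨hpf, fun V hV => ?_⟩
      have h2 := hG V hV
      have hV' := hV
      obtain ⟨L, _, _, _, v, -, -, -, rfl⟩ := hV'
      refine ⟨hpf, ?_⟩
      rw [val_prod, Finset.prod_eq_zero_iff]
      exact ⟨van v, hfin.mem_toFinset.2 hV, h2.2⟩
    have h3 := h1 _ hprod.1 ((hP _ hprod.1).2 hprod)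
    rw [val_prod, Finset.prod_eq_zero_iff] at h3
    obtain ⟨V, hV, h4⟩ := h3
    exact hGx V (hfin.mem_toFinset.1 hV) h4
  · rintro ⟨hx, V, hV, h1⟩
    refine ⟨hx, fun G hG hPG => h1 G ?_⟩
    rw [lowCurves_eq hX] at hV
    exact ((hP G hG).1 hPG).2 V hV

theorem spAlg_eq (hX : ProjVariety F d y) (h : AllSpecialSets y) : SpAlg F = LowUnion F := by
  refine closure_low hX h.finite (P := fun G => ∀ (K' : Type) [Field K'] [Algebra ℂ K'] (w : ℕ)
    (y' : Fin (n + 1) → K'), 1 ≤ w → SubVar F K' w y' → ¬ GeneralType ℂ K' w → val y' G = 0)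
    fun G hG => ?_
  rw [← h.alg_eq]
  constructor
  · intro h1
    refine ⟨hG, fun E _ _ w z hz hw ht hn => h1 E w z hw ⟨hz.ne, fun i =>
      hz.spec _ (hX.form i) (hX.sub.mem i), hz.gen, ht⟩ hn⟩
  · intro h1 K' _ _ w y' hw hy' hn
    exact h1.2 K' w y' (sub_of hX hy') hw hy'.dim hn

theorem spH_eq (hX : ProjVariety F d y) (h : SpecialCore y) : SpH F = LowUnion F := by
  refine closure_low hX h.finite (P := fun G => ∀ u ∈ {u | ∃ f, EntireIn F f ∧ ∃ t, u = f t},
    val u G = 0) fun G hG => ?_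
  rw [← h.ent_eq]
  constructor
  · intro h1
    refine ⟨hG, fun f hf t => ?_⟩
    have h2 := h1 _ ⟨fun t i => f i t, (entire_iff hX).2 hf, t, rfl⟩
    rwa [val_is_eval] at h2
  · rintro ⟨-, h1⟩ _ ⟨f, hf, t, rfl⟩
    rw [val_is_eval]
    exact h1 _ ((entire_iff hX).1 hf) t

theorem spP_eq (hX : ProjVariety F d y) (h : SpecialCore y) : SpP F = LowUnion F := by
  refine closure_low hX h.finite (P := fun G => ∀ u ∈ {u | ∃ f, EssentialIn F f ∧
    ∃ t ∈ ball (0 : ℂ) 1 \ {0}, u = f t}, val u G = 0) fun G hG => ?_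
  rw [← h.disc_eq]
  constructor
  · intro h1
    refine ⟨hG, fun f hf t ht => ?_⟩
    have h2 := h1 _ ⟨f, (essential_iff hX).2 hf, t, ht, rfl⟩
    rwa [val_is_eval] at h2
  · rintro ⟨-, h1⟩ _ ⟨f, hf, t, ht, rfl⟩
    rw [val_is_eval]
    exact h1 _ ((essential_iff hX).1 hf) t ht

theorem spMer_eq (hX : ProjVariety F d y) (h : SpecialCore y) : SpMer F = LowUnion F := by
  refine closure_low hX h.finite (P := fun G => ∀ u ∈ {u | ∃ (g : ℕ)
    (h : (Fin g → ℂ) → Fin (n + 1) → ℂ), MerIn F h ∧ ∃ z, u = h z}, val u G = 0) fun G hG => ?_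
  rw [← h.mero_eq]
  constructor
  · intro h1
    refine ⟨hG, fun g u hu t => ?_⟩
    have h2 := h1 _ ⟨g, fun t i => u i t, (mer_iff hX).2 hu, t, rfl⟩
    rwa [val_is_eval] at h2
  · rintro ⟨-, h1⟩ _ ⟨g, u, hu, t, rfl⟩
    rw [val_is_eval]
    exact h1 g _ ((mer_iff hX).1 hu) t

end Pool.Agent.H918.SP
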