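import Pool.Agent.H918.S.Conv
import Pool.Agent.H918.S.Eqs
import Pool.Agent.H918.E.AllV

/-! All special sets of surfaces with a finite unramified covering which has a semistable reduction. -/

set_option autoImplicit false

open Filter Topology Metric Set LinearAlgebra.Projectivization

namespace Pool.Agent.H918.SP

open FF Pool.Agent.W602.GT Pool.Agent.N154.GG Pool.Agent.H918.SS
open Pool.Agent.Q103.SF

variable {m n : ℕ} {ι ι' : Type} {F : ι → MvPolynomial (Fin (n + 1)) ℂ}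
  {F' : ι' → MvPolynomial (Fin (m + 1)) ℂ} {K : Type} [Field K]
  [Algebra ℂ K] {y : Fin (n + 1) → K} {L : PeriodPair}
  {Q : Fin (n + 1) → MvPolynomial (Fin (m + 1)) ℂ}
  {α : (Fin (m + 1) → ℂ) → ℂ ⧸ L.lattice} {B : Set (ℂ ⧸ L.lattice)}

/-- **Special sets of surfaces.** -/
theorem surfC (hX : ProjVariety F 2 y) (hF' : ∀ i, IsForm (F' i))
    (hC : EtaleCovering F F' Q) (hα : HolToTorus (Cone F') L α) (hB : B.Finite)
    (h : HasReduction F' α B) {H : MvPolynomial (Fin (n + 1)) ℂ} (hH : IsForm H)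
    (hy : val y H ≠ 0)
    (hHB : ∀ u ∈ Cone F, (∃ b ∈ B, OverPoint F' α Q b u) → val u H = 0) :
    SpecialCore y ∧ ∃ G ∈ lowForms y, val y G ≠ 0 := by
  obtain ⟨S, k, -, -, -, -, -, -, -, G, -, -, -, hG⟩ := allV hX le_rfl hF' hC hα hB h
  obtain ⟨h1, h2, h3, h4, -, -⟩ := hG H hH hy hHB
  have hent := ent_conv hX h1 h4
  have hsp := core_of hX.sub.dim hX.sub.ne hX.sub.gen h1 h2 hent (disc_conv hX h1 h3)
  exact ⟨hsp, G * H, proper_of h1 hent hsp, h2⟩

/-- **All special sets of surfaces.** -/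
theorem surfV (hX : ProjVariety F 2 y) (hK : GeneralType ℂ K 2) (hF' : ∀ i, IsForm (F' i))
    (hC : EtaleCovering F F' Q) (hα : HolToTorus (Cone F') L α) (hB : B.Finite)
    (h : HasReduction F' α B) {H : MvPolynomial (Fin (n + 1)) ℂ} (hH : IsForm H)
    (hy : val y H ≠ 0)
    (hHB : ∀ u ∈ Cone F, (∃ b ∈ B, OverPoint F' α Q b u) → val u H = 0) :
    AllSpecialSets y ∧ ∃ G ∈ lowForms y, val y G ≠ 0 := by
  obtain ⟨h1, h2⟩ := surfC hX hF' hC hα hB h hH hy hHB
  exact ⟨special_of hX.sub.dim hX.sub.ne hX.sub.gen hK h1, h2⟩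

end Pool.Agent.H918.SP
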